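import Mathlib
import Pool.Prelude.Def_F_c31e40fa
import Pool.Agent.TH363.QI.Pre
import Pool.Agent.TH363.QI.Landau
import Pool.Agent.H713R2.AR.T1

/-!
# The motion of the escaping points over a disc of the Multibrot set
-/

set_option autoImplicit false
open Complex Set Filter Topology Metric

namespace Pool.Agent.X151.MU

open Pool.Agent.H712R2 Pool.Agent.H713R2 Pool.Agent.H713R2.AR
open Pool.Agent.W746.LD (orb S hasDerivAt_orb orb_succ orb_zero P_eq_orb)

/-- Holomorphic dependence on the parameter. -/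
theorem seq_diff_param {d : ℕ} (hd : 2 ≤ d) {G : ℕ → ℂ × ℂ → ℂ} (hG : IsSeq d G) (j : ℕ) :
    ∀ c x, (c, x) ∈ AA d j → DifferentiableAt ℂ (fun c => G j (c, x)) c := by
  induction j with
  | zero =>
    intro c x _
    have h1 : (fun c => G 0 (c, x)) = fun _ => 1 := by funext c; exact hG.base _
    rw [h1]
    exact differentiableAt_const _
  | succ j ih =>
    intro c x hx
    have hopen : {a : ℂ | (a, x) ∈ AA d (j + 1)} ∈ 𝓝 c :=
      ((isOpen_AA d (j + 1)).preimage (by fun_prop : Continuous fun a : ℂ => (a, x))).mem_nhds hx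
    have hcont : ContinuousAt (fun c => G (j + 1) (c, x)) c := by
      have h1 : ContinuousAt (G (j + 1)) (c, x) :=
        (hG.isG (j + 1)).cont.continuousAt ((isOpen_AA d (j + 1)).mem_nhds hx)
      exact h1.comp (f := fun c : ℂ => (c, x)) (by fun_prop)
    apply differentiableAt_of_pow (N := d) (p := fun a => G j (a, x ^ d) - a * x ^ d) (by omega) hcont
      ((hG.isG (j + 1)).ne _ hx)
    · have h2 := ih c (x ^ d) (AA'_subset d j ((mem_AA_succ c x).mp hx))
      exact h2.sub (by fun_prop)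
    · filter_upwards [hopen] with a ha
      exact hG.relation j a x ha

variable {n : ℕ}

/-- The derivative along a moving point. -/
theorem hasDerivAt_moving {c b β' : ℂ} {β : ℂ → ℂ} (hβ : HasDerivAt β β' c) (hb : β c = b) (k : ℕ)
    (h : ∀ i ≤ k, Pool.Agent.W746.LD.P n c b i ≠ 0) :
    HasDerivAt (fun t => orb n t (β t) k)
      (Pool.Agent.W746.LD.P n c b k * (β' + (S n c b (k + 1) - 1))) c := by
  induction k with
  | zero =>
    simp only [orb_zero]
    rw [Pool.Agent.W746.LD.P_zero, Pool.Agent.W746.LD.S_one, sub_self, add_zero, one_mul]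
    exact hβ
  | succ k ih =>
    have h1 := ih (fun i hi => h i (by omega))
    have h2 : (fun t => orb n t (β t) (k + 1)) = fun t => orb n t (β t) k ^ n + t := by
      funext t; rw [orb_succ]
    rw [h2]
    have h3 := (h1.pow n).add (hasDerivAt_id c)
    refine h3.congr_deriv ?_
    rw [hb, Pool.Agent.W746.LD.S_succ b (k + 1), Pool.Agent.W746.LD.P_succ]
    have h4 := h (k + 1) le_rfl
    rw [Pool.Agent.W746.LD.P_succ] at h4
    set A := Pool.Agent.W746.LD.P n c b k * (n * (orb n c b k) ^ (n - 1)) with hA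
    have h5 : A * A⁻¹ = 1 := mul_inv_cancel₀ h4
    have h6 : (n : ℂ) * orb n c b k ^ (n - 1) *
        (Pool.Agent.W746.LD.P n c b k * (β' + (S n c b (k + 1) - 1))) =
        A * (β' + (S n c b (k + 1) - 1)) := by rw [hA]; ring
    rw [h6]
    linear_combination -h5

theorem fc_iter_eq (c z : ℂ) (j : ℕ) : (fc n c)^[j] z = orb n c z j := rfl

/-- An orbit which leaves the disc of radius two does not pass through `0`. -/
theorem orb_ne_of_big (hn : 2 ≤ n) {c : ℂ} (hc : c ∈ N62a1eb23.multibrotSet n) {b : ℂ} {j : ℕ}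
    (hb : 2 < ‖orb n c b j‖) : ∀ i < j, orb n c b i ≠ 0 := by
  intro i hi h0
  have h1 : orb n c b j = orb n c 0 (j - i) := by
    rw [← h0, ← Pool.Agent.W746.LD.orb_add]
    congr 1
    omega
  have h2 := ((mem_multibrot_iff hn c).mp hc) (j - i)
  have h3 : Pool.Agent.H712R2.P n (j - i) c = orb n c 0 (j - i) := rfl
  rw [h3, ← h1] at h2
  linarith

/-- The motion of an escaping point. -/
theorem exists_motion (hn : 2 ≤ n) {c : ℂ} {r : ℝ} (hr : 0 < r)
    (hsub : ball c r ⊆ N62a1eb23.multibrotSet n) (j : ℕ) :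
    ∃ B : ℂ → ℂ → ℂ, ∀ b : ℂ, 2 < ‖orb n c b j‖ →
      DifferentiableOn ℂ (B b) (ball c r) ∧ B b c = b ∧
      (∀ t ∈ ball c r, orb n t (B b t) j = orb n c b j) ∧
      ∀ b' : ℂ, 2 < ‖orb n c b' j‖ → b' ≠ b → ∀ t ∈ ball c r, B b' t ≠ B b t := by
  obtain ⟨G, hG⟩ := exists_seq hn
  have hcM : c ∈ N62a1eb23.multibrotSet n := hsub (mem_ball_self hr)
  have hbd : ∀ t ∈ ball c r, ∀ i, ‖Pool.Agent.H712R2.P n i t‖ ≤ 2 := fun t ht i =>
    (mem_multibrot_iff hn t).mp (hsub ht) i
  have hx : ∀ b : ℂ, ∃ x : ℂ, 2 < ‖orb n c b j‖ → x ≠ 0 ∧ (c, x) ∈ AA n j ∧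
      x⁻¹ * G j (c, x) = b := by
    intro b
    by_cases hb : 2 < ‖orb n c b j‖
    · have hb0 : b ≠ 0 := by
        rintro rfl
        have h1 := hbd c (mem_ball_self hr) j
        have h2 : Pool.Agent.H712R2.P n j c = orb n c 0 j := rfl
        rw [h2] at h1
        linarith
      have ho : orb n c b j ≠ 0 := by
        intro h; rw [h, norm_zero] at hb; linarith
      obtain ⟨x, h1, h2, h3⟩ := (hG.isG j).surj c b hb0 ho (fun i _ _ =>
        (hbd c (mem_ball_self hr) i).trans_lt hb)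
      exact ⟨x, fun _ => ⟨h1, h2, h3⟩⟩
    · exact ⟨0, fun h => absurd h hb⟩
  choose X hX using hx
  refine ⟨fun b t => (X b)⁻¹ * G j (t, X b), ?_⟩
  have hnorm : ∀ b : ℂ, 2 < ‖orb n c b j‖ → ‖X b‖ ^ (n ^ j) * ‖orb n c b j‖ = 1 := by
    intro b hb
    obtain ⟨h1, h2, h3⟩ := hX b hb
    have h4 := (hG.isG j).conj c (X b) h2 h1
    rw [h3, fc_iter_eq] at h4
    rw [h4, norm_pow, norm_inv, ← mul_pow, mul_inv_cancel₀ (norm_ne_zero_iff.mpr h1), one_pow]
  have hAA : ∀ b : ℂ, 2 < ‖orb n c b j‖ → ∀ t ∈ ball c r, (t, X b) ∈ AA n j := by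
    intro b hb t ht i _ _
    simp only
    have h1 := hnorm b hb
    have h2 := hbd t ht i
    have h3 : 0 ≤ ‖X b‖ ^ (n ^ j) := by positivity
    have h4 : 0 < ‖X b‖ ^ (n ^ j) := by
      rcases h3.lt_or_eq with h | h
      · exact h
      · rw [← h, zero_mul] at h1; norm_num at h1
    have h5 : ‖X b‖ ^ (n ^ j) * 2 < 1 := by nlinarith
    nlinarith
  intro b hb
  obtain ⟨h1, h2, h3⟩ := hX b hb
  refine ⟨?_, h3, ?_, ?_⟩
  · intro t ht
    exact ((seq_diff_param hn hG j t (X b) (hAA b hb t ht)).const_mul _).differentiableWithinAt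
  · intro t ht
    have h4 := (hG.isG j).conj t (X b) (hAA b hb t ht) h1
    have h5 := (hG.isG j).conj c (X b) h2 h1
    rw [h3] at h5
    rw [← fc_iter_eq, ← fc_iter_eq, h4, h5]
  · intro b' hb' hne t ht heq
    obtain ⟨h1', h2', h3'⟩ := hX b' hb'
    apply hne
    have h4 := (hG.isG j).inj t (X b') (X b) (hAA b' hb' t ht) (hAA b hb t ht) h1' h1 heq
    rw [← h3', ← h3, h4]

end Pool.Agent.X151.MU
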