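import Mathlib
import Pool.Agent.X151.MU.Motion

/-!
# The modulus of continuity of the sums of inverse derivatives
-/

set_option autoImplicit false
open Complex Set Filter Topology Metric

namespace Pool.Agent.X151.MU

open Pool.Agent.H712R2 Pool.Agent.H713R2 Pool.Agent.H713R2.AR
open Pool.Agent.W746.LD (orb S hasDerivAt_orb orb_succ orb_zero P_eq_orb)
open Pool.Agent.TH363.QI (C₁ C₁_nonneg landau)

variable {n : ℕ}

theorem pow_gap (hn : 2 ≤ n) {z w : ℝ} (hz : 0 ≤ z) (h : z + 2 ≤ w) (hw : 6 ≤ w) :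
    z ^ n + 12 ≤ w ^ n := by
  obtain ⟨m, rfl⟩ : ∃ m, n = m + 1 := ⟨n - 1, by omega⟩
  have h1 : z ^ m ≤ w ^ m := pow_le_pow_left₀ hz (by linarith) m
  have h2 : (6 : ℝ) ≤ w ^ m := by
    calc (6 : ℝ) ≤ w := hw
      _ = w ^ 1 := (pow_one w).symm
      _ ≤ w ^ m := pow_le_pow_right₀ (by linarith) (by omega)
  have h0 : 0 ≤ z ^ m := pow_nonneg hz m
  rw [pow_succ, pow_succ]
  nlinarith

/-- Comparison of orbits. -/
theorem orb_gap (hn : 2 ≤ n) {t t' z w : ℂ} (ht : ‖t‖ ≤ 2) (ht' : ‖t'‖ ≤ 2) (h : ‖z‖ + 2 ≤ ‖w‖)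
    (hw : 6 ≤ ‖w‖) (k : ℕ) : ‖orb n t z k‖ + 2 ≤ ‖orb n t' w k‖ ∧ 6 ≤ ‖orb n t' w k‖ := by
  induction k with
  | zero => exact ⟨h, hw⟩
  | succ k ih =>
    obtain ⟨h1, h2⟩ := ih
    have h3 := pow_gap hn (norm_nonneg _) h1 h2
    have h4 : ‖orb n t z (k + 1)‖ ≤ ‖orb n t z k‖ ^ n + 2 := by
      rw [orb_succ]
      refine (norm_add_le _ _).trans ?_
      rw [norm_pow]
      linarith
    have h5 : ‖orb n t' w k‖ ^ n - 2 ≤ ‖orb n t' w (k + 1)‖ := by
      rw [orb_succ]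
      have := norm_sub_le (orb n t' w k ^ n + t') t'
      rw [add_sub_cancel_right, norm_pow] at this
      linarith
    have h6 : 0 ≤ ‖orb n t z k‖ ^ n := by positivity
    exact ⟨by linarith, by linarith⟩

/-- The derivative of the motion. -/
theorem deriv_motion (hn : 2 ≤ n) {c : ℂ} {r : ℝ} (hr : 0 < r)
    (hsub : ball c r ⊆ N62a1eb23.multibrotSet n) {j : ℕ} {b : ℂ} (hb : 2 < ‖orb n c b j‖)
    {β : ℂ → ℂ} (h1 : DifferentiableOn ℂ β (ball c r)) (h2 : β c = b)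
    (h3 : ∀ t ∈ ball c r, orb n t (β t) j = orb n c b j) :
    HasDerivAt β (1 - S n c b (j + 1)) c := by
  have hcM : c ∈ N62a1eb23.multibrotSet n := hsub (mem_ball_self hr)
  have h4 : HasDerivAt β (deriv β c) c :=
    (h1.differentiableAt (isOpen_ball.mem_nhds (mem_ball_self hr))).hasDerivAt
  have hP : ∀ i ≤ j, Pool.Agent.W746.LD.P n c b i ≠ 0 := fun i hi =>
    Pool.Agent.W746.LD.P_ne_zero hn fun m hm => orb_ne_of_big hn hcM hb m (by omega)
  have h5 := hasDerivAt_moving h4 h2 j hP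
  have h6 : (fun t => orb n t (β t) j) =ᶠ[𝓝 c] fun _ => orb n c b j := by
    filter_upwards [isOpen_ball.mem_nhds (mem_ball_self hr)] with t ht using h3 t ht
  have h7 := (h5.congr_of_eventuallyEq h6.symm).unique (hasDerivAt_const c (orb n c b j))
  have h8 := (mul_eq_zero.mp h7).resolve_left (hP j le_rfl)
  have h9 : deriv β c = 1 - S n c b (j + 1) := by linear_combination h8
  rw [h9] at h4
  exact h4

/-- Two moving points and a third one. -/
theorem two_points {c : ℂ} {r : ℝ} (hr : 0 < r) {x y : ℂ → ℂ} {x' y' : ℂ}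
    (hx : DifferentiableOn ℂ x (ball c r)) (hy : DifferentiableOn ℂ y (ball c r))
    (hxy : ∀ t ∈ ball c r, x t ≠ y t) (hx6 : ∀ t ∈ ball c r, ‖x t‖ < 6)
    (hy6 : ∀ t ∈ ball c r, ‖y t‖ < 6) (hx' : HasDerivAt x x' c) (hy' : HasDerivAt y y' c) :
    r * ‖x' - y'‖ ≤ (4 * C₁ + 24) * ‖x c - y c‖ * (1 + |Real.log ‖x c - y c‖|) := by
  have hc : c ∈ ball c r := mem_ball_self hr
  have h70 : ∀ t ∈ ball c r, (7 : ℂ) - y t ≠ 0 := by
    intro t ht h
    have h1 := hy6 t ht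
    have h2 : y t = 7 := by linear_combination -h
    rw [h2] at h1
    norm_num at h1
  set h : ℂ → ℂ := fun t => (x t - y t) / (7 - y t) with hh
  have hd : DifferentiableOn ℂ h (ball c r) :=
    (hx.sub hy).div ((differentiableOn_const _).sub hy) h70
  have h0 : ∀ t ∈ ball c r, h t ≠ 0 := fun t ht =>
    div_ne_zero (sub_ne_zero.mpr (hxy t ht)) (h70 t ht)
  have h1 : ∀ t ∈ ball c r, h t ≠ 1 := by
    intro t ht he
    rw [hh] at he
    simp only at he
    rw [div_eq_one_iff_eq (h70 t ht)] at he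
    have h2 : x t = 7 := by linear_combination he
    have h3 := hx6 t ht
    rw [h2] at h3
    norm_num at h3
  have hder : HasDerivAt h (((x' - y') * (7 - y c) - (x c - y c) * (0 - y')) / (7 - y c) ^ 2) c :=
    (hx'.sub hy').div ((hasDerivAt_const c (7 : ℂ)).sub hy') (h70 c hc)
  have hL := landau hr hd h0 h1 hder
  have hne : x c - y c ≠ 0 := sub_ne_zero.mpr (hxy c hc)
  have h7c := h70 c hc
  have hq : ((x' - y') * (7 - y c) - (x c - y c) * (0 - y')) / (7 - y c) ^ 2 / h c =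
      (x' - y') / (x c - y c) + y' / (7 - y c) := by
    rw [hh]
    field_simp
    ring
  rw [hq] at hL
  set δ : ℝ := ‖x c - y c‖ with hδ
  have hδ0 : 0 < δ := norm_pos_iff.mpr hne
  have hy'r : ‖y'‖ * r ≤ 12 := by
    have h2 : MapsTo y (ball c r) (closedBall (y c) 12) := by
      intro t ht
      rw [mem_closedBall, dist_eq_norm]
      refine (norm_sub_le _ _).trans ?_
      linarith [hy6 t ht, hy6 c hc]
    have h3 := Complex.norm_deriv_le_div_of_mapsTo_ball hy h2 hr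
    rw [hy'.deriv, le_div_iff₀ hr] at h3
    exact h3
  have h71 : 1 ≤ ‖7 - y c‖ := by
    have h2 := norm_sub_norm_le (7 : ℂ) (y c)
    have h3 : ‖(7 : ℂ)‖ = 7 := by simp
    rw [h3] at h2
    linarith [hy6 c hc]
  have h713 : ‖7 - y c‖ ≤ 13 := by
    have h2 := norm_sub_le (7 : ℂ) (y c)
    have h3 : ‖(7 : ℂ)‖ = 7 := by simp
    rw [h3] at h2
    linarith [hy6 c hc]
  have hlog : |Real.log ‖h c‖| ≤ |Real.log δ| + 3 := by
    rw [hh]
    simp only
    rw [norm_div, Real.log_div hδ0.ne' (by linarith)]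
    refine (abs_sub _ _).trans ?_
    have h2 : 0 ≤ Real.log ‖7 - y c‖ := Real.log_nonneg h71
    have h3 : Real.log ‖7 - y c‖ ≤ 3 := by
      rw [Real.log_le_iff_le_exp (by linarith)]
      have h4 : (2.7 : ℝ) ≤ Real.exp 1 := by
        have := Real.exp_one_gt_d9
        linarith
      have h5 : Real.exp 3 = Real.exp 1 ^ 3 := by
        rw [← Real.exp_nat_mul]; norm_num
      rw [h5]
      calc ‖7 - y c‖ ≤ 13 := h713
        _ ≤ (2.7 : ℝ) ^ 3 := by norm_num
        _ ≤ _ := by gcongr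
    rw [abs_of_nonneg h2]
    linarith
  have h2 : ‖(x' - y') / (x c - y c)‖ * r ≤ 4 * (C₁ + |Real.log δ| + 3) + 12 := by
    have h3 : ‖(x' - y') / (x c - y c)‖ ≤
        ‖(x' - y') / (x c - y c) + y' / (7 - y c)‖ + ‖y' / (7 - y c)‖ := by
      have := norm_sub_le ((x' - y') / (x c - y c) + y' / (7 - y c)) (y' / (7 - y c))
      rwa [add_sub_cancel_right] at this
    have h4 : ‖y' / (7 - y c)‖ * r ≤ 12 := by
      rw [norm_div, div_mul_eq_mul_div, div_le_iff₀ (by linarith)]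
      nlinarith
    nlinarith
  rw [norm_div, div_mul_eq_mul_div, div_le_iff₀ hδ0] at h2
  have h3 := C₁_nonneg
  have h4 := abs_nonneg (Real.log δ)
  calc r * ‖x' - y'‖ = ‖x' - y'‖ * r := mul_comm _ _
    _ ≤ (4 * (C₁ + |Real.log δ| + 3) + 12) * δ := h2
    _ ≤ (4 * C₁ + 24) * (1 + |Real.log δ|) * δ := by
        apply mul_le_mul_of_nonneg_right _ hδ0.le
        nlinarith [mul_nonneg h3 h4]
    _ = _ := by ring

theorem norm_le_two_of_sub (hn : 2 ≤ n) {t : ℂ} (ht : t ∈ N62a1eb23.multibrotSet n) : ‖t‖ ≤ 2 := by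
  have := Pool.Agent.W746.LD.mem_multibrot_orb hn ht 0
  simpa using this

/-- The finite level. -/
theorem level (hn : 2 ≤ n) {c : ℂ} {r : ℝ} (hr : 0 < r)
    (hsub : ball c r ⊆ N62a1eb23.multibrotSet n) {j : ℕ} {b : ℂ} (hb : 2 < ‖orb n c b j‖)
    (hb4 : ‖b‖ ≤ 4) :
    r * ‖S n c b (j + 1)‖ ≤ (4 * C₁ + 24) * ‖b - c‖ * (1 + |Real.log ‖b - c‖|) ∧
    r * ‖S n c b (j + 1) - 1‖ ≤ (4 * C₁ + 24) * ‖b‖ * (1 + |Real.log ‖b‖|) ∧
    ∀ b' : ℂ, 2 < ‖orb n c b' j‖ → ‖b'‖ ≤ 4 → b' ≠ b →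
      r * ‖S n c b' (j + 1) - S n c b (j + 1)‖ ≤
        (4 * C₁ + 24) * ‖b' - b‖ * (1 + |Real.log ‖b' - b‖|) := by
  obtain ⟨B, hB⟩ := exists_motion hn hr hsub j
  have hbd : ∀ t ∈ ball c r, ‖t‖ ≤ 2 := fun t ht => norm_le_two_of_sub hn (hsub ht)
  have hc : c ∈ ball c r := mem_ball_self hr
  have h6 : ∀ b : ℂ, 2 < ‖orb n c b j‖ → ‖b‖ ≤ 4 → ∀ t ∈ ball c r, ‖B b t‖ < 6 := by
    intro b hb hb4 t ht
    by_contra hcon
    rw [not_lt] at hcon
    have h1 := (orb_gap hn (hbd c hc) (hbd t ht) (z := b) (w := B b t) (by linarith) hcon j).1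
    rw [(hB b hb).2.2.1 t ht] at h1
    linarith
  obtain ⟨h1, h2, h3, h4⟩ := hB b hb
  have h5 := deriv_motion hn hr hsub hb h1 h2 h3
  refine ⟨?_, ?_, ?_⟩
  · have h7 := two_points hr (x := B b) (y := fun t => t) (y' := 1) h1 differentiableOn_id ?_
      (h6 b hb hb4) (fun t ht => (hbd t ht).trans_lt (by norm_num)) h5 (hasDerivAt_id c)
    · rw [h2, show (1 : ℂ) - S n c b (j + 1) - 1 = -S n c b (j + 1) by ring, norm_neg] at h7
      exact h7
    · intro t ht heq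
      have h8 := h3 t ht
      rw [heq] at h8
      have h9 := Pool.Agent.W746.LD.mem_multibrot_orb hn (hsub ht) j
      rw [h8] at h9
      linarith
  · have h7 := two_points hr (x := B b) (y := fun _ => 0) (y' := 0) h1 (differentiableOn_const _) ?_
      (h6 b hb hb4) (fun t ht => by simp) h5 (hasDerivAt_const c 0)
    · rw [h2, sub_zero, sub_zero, norm_sub_rev] at h7
      exact h7
    · intro t ht heq
      have h8 := h3 t ht
      rw [heq] at h8
      have h9 := (mem_multibrot_iff hn t).mp (hsub ht) j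
      have h10 : Pool.Agent.H712R2.P n j t = orb n t 0 j := rfl
      rw [h10, h8] at h9
      linarith
  · intro b' hb' hb4' hne
    obtain ⟨h1', h2', h3', h4'⟩ := hB b' hb'
    have h5' := deriv_motion hn hr hsub hb' h1' h2' h3'
    have h7 := two_points hr (x := B b') (y := B b) h1' h1 (h4 b' hb' hne)
      (h6 b' hb' hb4') (h6 b hb hb4) h5' h5
    rw [h2, h2', show (1 : ℂ) - S n c b' (j + 1) - (1 - S n c b (j + 1)) =
      -(S n c b' (j + 1) - S n c b (j + 1)) by ring, norm_neg] at h7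
    exact h7

end Pool.Agent.X151.MU
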