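import Mathlib
import Pool.Agent.X151.MU.Two
import Pool.Agent.TH363.QI.Par

/-!
# The modulus of continuity of the infinitesimal deformation
-/

set_option autoImplicit false
open Complex Set Filter Topology Metric

namespace Pool.Agent.X151.MU

open Pool.Agent.H712R2 Pool.Agent.H713R2 Pool.Agent.H713R2.AR
open Pool.Agent.W746.LD (orb S hasDerivAt_orb orb_succ orb_zero P_eq_orb)
open Pool.Agent.TH363.QI (C₁ C₁_nonneg landau nopre D)

variable {n : ℕ}

/-- The critical orbit, at every time. -/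
theorem crit_pair (hn : 2 ≤ n) {c : ℂ} {r : ℝ} (hr : 0 < r)
    (hno : ∀ t ∈ ball c r, ¬ ∃ m z, N62a1eb23.IsAttractingCycle (fun z => z ^ n + t) m z)
    (hsub : ball c r ⊆ N62a1eb23.multibrotSet n) {N M : ℕ} (hNM : M < N) :
    r * ‖D n c N - D n c M‖ ≤ (4 * C₁ + 24) * ‖orb n c c N - orb n c c M‖ *
      (1 + |Real.log ‖orb n c c N - orb n c c M‖|) := by
  have hb : ∀ k, ∀ t ∈ ball c r, ‖orb n t t k‖ < 6 := fun k t ht =>
    (Pool.Agent.W746.LD.mem_multibrot_orb hn (hsub ht) k).trans_lt (by norm_num)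
  refine two_points hr (x := fun t => orb n t t N) (y := fun t => orb n t t M)
    (Pool.Agent.W746.LD.diff_param N).differentiableOn
    (Pool.Agent.W746.LD.diff_param M).differentiableOn ?_ (hb N) (hb M)
    (Pool.Agent.TH363.QI.hasDerivAt_D n c N) (Pool.Agent.TH363.QI.hasDerivAt_D n c M)
  intro t ht
  have := nopre hn hno hsub ht (l := M) (p := N - M) (by omega)
  rwa [show M + (N - M) = N by omega] at this

theorem crit_zero (hn : 2 ≤ n) {c : ℂ} {r : ℝ} (hr : 0 < r)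
    (hno : ∀ t ∈ ball c r, ¬ ∃ m z, N62a1eb23.IsAttractingCycle (fun z => z ^ n + t) m z)
    (hsub : ball c r ⊆ N62a1eb23.multibrotSet n) (N : ℕ) :
    r * ‖D n c N‖ ≤ (4 * C₁ + 24) * ‖orb n c c N‖ * (1 + |Real.log ‖orb n c c N‖|) := by
  have hb : ∀ k, ∀ t ∈ ball c r, ‖orb n t t k‖ < 6 := fun k t ht =>
    (Pool.Agent.W746.LD.mem_multibrot_orb hn (hsub ht) k).trans_lt (by norm_num)
  have h := two_points hr (x := fun t => orb n t t N) (y := fun _ => 0) (y' := 0)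
    (Pool.Agent.W746.LD.diff_param N).differentiableOn
    (differentiableOn_const _) ?_ (hb N) (fun t _ => by simp)
    (Pool.Agent.TH363.QI.hasDerivAt_D n c N) (hasDerivAt_const c 0)
  · simpa only [sub_zero] using h
  · intro t ht
    rw [← P_eq_orb hn]
    exact Pool.Agent.H713R2.AR.P_ne_zero hn (hno t ht) (by omega)

/-- The critical orbit and an escaping point. -/
theorem crit_esc (hn : 2 ≤ n) {c : ℂ} {r : ℝ} (hr : 0 < r)
    (hsub : ball c r ⊆ N62a1eb23.multibrotSet n) {j : ℕ} {b : ℂ} (hb : 2 < ‖orb n c b j‖)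
    (hb4 : ‖b‖ ≤ 4) (N : ℕ) :
    r * ‖1 - S n c b (j + 1) - D n c N‖ ≤ (4 * C₁ + 24) * ‖b - orb n c c N‖ *
      (1 + |Real.log ‖b - orb n c c N‖|) := by
  obtain ⟨B, hB⟩ := exists_motion hn hr hsub j
  have hbd : ∀ t ∈ ball c r, ‖t‖ ≤ 2 := fun t ht => norm_le_two_of_sub hn (hsub ht)
  have hc : c ∈ ball c r := mem_ball_self hr
  have h6 : ∀ t ∈ ball c r, ‖B b t‖ < 6 := by
    intro t ht
    by_contra hcon
    rw [not_lt] at hcon
    have h1 := (orb_gap hn (hbd c hc) (hbd t ht) (z := b) (w := B b t) (by linarith) hcon j).1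
    rw [(hB b hb).2.2.1 t ht] at h1
    linarith
  obtain ⟨h1, h2, h3, h4⟩ := hB b hb
  have h5 := deriv_motion hn hr hsub hb h1 h2 h3
  have h7 := two_points hr (x := B b) (y := fun t => orb n t t N) h1
    (Pool.Agent.W746.LD.diff_param N).differentiableOn ?_ h6
    (fun t ht => (Pool.Agent.W746.LD.mem_multibrot_orb hn (hsub ht) N).trans_lt (by norm_num)) h5
    (Pool.Agent.TH363.QI.hasDerivAt_D n c N)
  · rw [h2] at h7
    exact h7
  · intro t ht heq
    have h8 := h3 t ht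
    rw [heq, ← Pool.Agent.W746.LD.orb_add] at h8
    have h9 := Pool.Agent.W746.LD.mem_multibrot_orb hn (hsub ht) (N + j)
    rw [h8] at h9
    linarith

/-- Growth outside of the disc of radius three. -/
theorem orb_big (hn : 2 ≤ n) {c : ℂ} (hc : ‖c‖ ≤ 2) {z : ℂ} (hz : 3 ≤ ‖z‖) (k : ℕ) :
    3 ≤ ‖orb n c z k‖ := by
  induction k with
  | zero => exact hz
  | succ k ih =>
    have h1 : ‖orb n c z k‖ ^ 2 ≤ ‖orb n c z k‖ ^ n := pow_le_pow_right₀ (by linarith) hn
    have h2 : ‖orb n c z k‖ ^ n - 2 ≤ ‖orb n c z (k + 1)‖ := by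
      rw [orb_succ]
      have := norm_sub_le (orb n c z k ^ n + c) c
      rw [add_sub_cancel_right, norm_pow] at this
      linarith
    nlinarith

theorem P_step (hn : 2 ≤ n) {c : ℂ} {z : ℂ} {k : ℕ} (hk : 3 ≤ ‖orb n c z k‖) :
    ‖(Pool.Agent.W746.LD.P n c z (k + 1))⁻¹‖ ≤ 1 / 6 * ‖(Pool.Agent.W746.LD.P n c z k)⁻¹‖ := by
  rw [Pool.Agent.W746.LD.P_succ, mul_inv, norm_mul, mul_comm]
  apply mul_le_mul_of_nonneg_right _ (norm_nonneg _)
  rw [norm_inv, norm_mul, norm_pow, Complex.norm_natCast, one_div]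
  apply inv_anti₀ (by norm_num)
  have h1 : (2 : ℝ) ≤ n := by exact_mod_cast hn
  have h2 : (3 : ℝ) ≤ ‖orb n c z k‖ ^ (n - 1) := by
    calc (3 : ℝ) ≤ ‖orb n c z k‖ := hk
      _ = ‖orb n c z k‖ ^ 1 := (pow_one _).symm
      _ ≤ _ := pow_le_pow_right₀ (by linarith) (by omega)
  nlinarith

/-- An escaping orbit is eventually large. -/
theorem eventually_big {c b : ℂ}
    (hb : Tendsto (fun k => orb n c b k) atTop (Bornology.cobounded ℂ)) (A : ℝ) :
    ∀ᶠ k in atTop, A < ‖orb n c b k‖ :=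
  (tendsto_norm_cobounded_atTop.comp hb).eventually (eventually_gt_atTop A)

theorem summable_esc (hn : 2 ≤ n) {c : ℂ} {b : ℂ}
    (hb : Tendsto (fun k => orb n c b k) atTop (Bornology.cobounded ℂ)) :
    Summable fun k => ‖(Pool.Agent.W746.LD.P n c b k)⁻¹‖ := by
  have h1 : Summable fun k => (Pool.Agent.W746.LD.P n c b k)⁻¹ := by
    apply summable_of_ratio_norm_eventually_le (r := 1 / 6) (by norm_num)
    filter_upwards [eventually_big hb 3] with k hk
    exact P_step hn hk.le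
  exact h1.norm

theorem tendsto_S (hn : 2 ≤ n) {c : ℂ} {b : ℂ}
    (hb : Tendsto (fun k => orb n c b k) atTop (Bornology.cobounded ℂ)) :
    Tendsto (fun j => S n c b (j + 1)) atTop (𝓝 (∑' k, (Pool.Agent.W746.LD.P n c b k)⁻¹)) := by
  have h1 := (summable_esc hn hb).of_norm.hasSum.tendsto_sum_nat
  exact h1.comp (tendsto_add_atTop_nat 1)

/-- Outside of the disc of radius three the sum is close to `1`. -/
theorem far (hn : 2 ≤ n) {c : ℂ} (hc : ‖c‖ ≤ 2) {b : ℂ} (hb3 : 3 ≤ ‖b‖)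
    (hb : Tendsto (fun k => orb n c b k) atTop (Bornology.cobounded ℂ)) :
    ‖(∑' k, (Pool.Agent.W746.LD.P n c b k)⁻¹) - 1‖ ≤ 1 / 5 := by
  have hP : ∀ k, ‖(Pool.Agent.W746.LD.P n c b k)⁻¹‖ ≤ (1 / 6 : ℝ) ^ k := by
    intro k
    induction k with
    | zero => simp
    | succ k ih =>
      refine (P_step hn (orb_big hn hc hb3 k)).trans ?_
      rw [pow_succ]
      linarith
  have hs := (summable_esc hn hb).of_norm
  rw [hs.tsum_eq_zero_add, Pool.Agent.W746.LD.P_zero, inv_one, add_sub_cancel_left]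
  have h1 : HasSum (fun k : ℕ => (1 / 6 : ℝ) ^ (k + 1)) (1 / 5) := by
    have h2 := (hasSum_geometric_of_lt_one (r := (1 / 6 : ℝ)) (by norm_num) (by norm_num)).mul_left
      (1 / 6 : ℝ)
    have h3 : (1 / 6 : ℝ) * (1 - 1 / 6)⁻¹ = 1 / 5 := by norm_num
    rw [h3] at h2
    have h4 : (fun k : ℕ => (1 / 6 : ℝ) ^ (k + 1)) = fun k => 1 / 6 * (1 / 6 : ℝ) ^ k := by
      funext k
      rw [pow_succ]; ring
    rw [h4]
    exact h2
  exact tsum_of_norm_bounded h1 (fun k => hP (k + 1))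

end Pool.Agent.X151.MU
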