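import Mathlib
import Pool.Agent.X151.MU.Three

/-!
# The log-Lipschitz bound for the velocities of the moving points
-/

set_option autoImplicit false
open Complex Set Filter Topology Metric

namespace Pool.Agent.X151.MU

open Pool.Agent.H712R2 Pool.Agent.H713R2 Pool.Agent.H713R2.AR
open Pool.Agent.W746.LD (orb S hasDerivAt_orb orb_succ orb_zero P_eq_orb)
open Pool.Agent.TH363.QI (C₁ C₁_nonneg landau nopre D)

/-- The parameters with an attracting cycle. -/
def Hy (n : ℕ) : Set ℂ := {c | ∃ m z, N62a1eb23.IsAttractingCycle (fun z => z ^ n + c) m z}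

/-- The moving points and their velocities. -/
def Mv (n : ℕ) (c x v : ℂ) : Prop :=
  (x = 0 ∧ v = 0) ∨ (∃ N : ℕ, x = orb n c c N ∧ v = D n c N) ∨
    (Tendsto (fun k => orb n c x k) atTop (Bornology.cobounded ℂ) ∧ ‖x‖ ≤ 4 ∧
      v = 1 - ∑' k, (Pool.Agent.W746.LD.P n c x k)⁻¹)

variable {n : ℕ}

/-- The bound. -/
def Bn (r : ℝ) (x v y w : ℂ) : Prop :=
  r * ‖v - w‖ ≤ (4 * C₁ + 24) * ‖x - y‖ * (1 + |Real.log ‖x - y‖|)

theorem Bn.symm {r : ℝ} {x v y w : ℂ} (h : Bn r x v y w) : Bn r y w x v := by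
  unfold Bn at h ⊢
  rw [norm_sub_rev w v, norm_sub_rev y x]
  exact h

theorem Bn.refl (r : ℝ) (x v : ℂ) : Bn r x v x v := by
  unfold Bn
  simp

theorem main_ball (hn : 2 ≤ n) {c : ℂ} {r : ℝ} (hr : 0 < r)
    (hno : ∀ t ∈ ball c r, ¬ ∃ m z, N62a1eb23.IsAttractingCycle (fun z => z ^ n + t) m z)
    (hcM : c ∈ N62a1eb23.multibrotSet n) {x v y w : ℂ} (hx : Mv n c x v) (hy : Mv n c y w) :
    Bn r x v y w := by
  have hsub := ball_subset hn hr hcM hno
  have hcont : Continuous fun u : ℂ => r * ‖u‖ := by fun_prop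
  -- the six kinds of pairs
  have h01 : ∀ N, Bn r (orb n c c N) (D n c N) 0 0 := by
    intro N
    unfold Bn
    rw [sub_zero, sub_zero]
    exact crit_zero hn hr hno hsub N
  have h11 : ∀ N M, Bn r (orb n c c N) (D n c N) (orb n c c M) (D n c M) := by
    intro N M
    rcases lt_trichotomy M N with h | h | h
    · exact crit_pair hn hr hno hsub h
    · rw [h]; exact Bn.refl _ _ _
    · exact Bn.symm (crit_pair hn hr hno hsub h)
  have h12 : ∀ N, ∀ b : ℂ, Tendsto (fun k => orb n c b k) atTop (Bornology.cobounded ℂ) → ‖b‖ ≤ 4 →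
      Bn r b (1 - ∑' k, (Pool.Agent.W746.LD.P n c b k)⁻¹) (orb n c c N) (D n c N) := by
    intro N b hb hb4
    have h1 := tendsto_S hn hb
    have h2 : Tendsto (fun j => r * ‖1 - S n c b (j + 1) - D n c N‖) atTop
        (𝓝 (r * ‖1 - (∑' k, (Pool.Agent.W746.LD.P n c b k)⁻¹) - D n c N‖)) :=
      (((h1.const_sub 1).sub_const _).norm).const_mul r
    refine le_of_tendsto h2 ?_
    filter_upwards [eventually_big hb 2] with j hj
    exact crit_esc hn hr hsub hj hb4 N
  have h02 : ∀ b : ℂ, Tendsto (fun k => orb n c b k) atTop (Bornology.cobounded ℂ) → ‖b‖ ≤ 4 →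
      Bn r b (1 - ∑' k, (Pool.Agent.W746.LD.P n c b k)⁻¹) 0 0 := by
    intro b hb hb4
    have h1 := tendsto_S hn hb
    have h2 : Tendsto (fun j => r * ‖1 - S n c b (j + 1) - 0‖) atTop
        (𝓝 (r * ‖1 - (∑' k, (Pool.Agent.W746.LD.P n c b k)⁻¹) - 0‖)) :=
      (((h1.const_sub 1).sub_const _).norm).const_mul r
    refine le_of_tendsto h2 ?_
    filter_upwards [eventually_big hb 2] with j hj
    have h3 := (level hn hr hsub hj hb4).2.1
    rw [sub_zero, sub_zero, norm_sub_rev]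
    exact h3
  have h22 : ∀ b : ℂ, Tendsto (fun k => orb n c b k) atTop (Bornology.cobounded ℂ) → ‖b‖ ≤ 4 →
      ∀ b' : ℂ, Tendsto (fun k => orb n c b' k) atTop (Bornology.cobounded ℂ) → ‖b'‖ ≤ 4 →
      Bn r b' (1 - ∑' k, (Pool.Agent.W746.LD.P n c b' k)⁻¹) b
        (1 - ∑' k, (Pool.Agent.W746.LD.P n c b k)⁻¹) := by
    intro b hb hb4 b' hb' hb4'
    by_cases hne : b' = b
    · rw [hne]; exact Bn.refl _ _ _
    have h1 := tendsto_S hn hb
    have h1' := tendsto_S hn hb'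
    have h2 : Tendsto (fun j => r * ‖(1 - S n c b' (j + 1)) - (1 - S n c b (j + 1))‖) atTop
        (𝓝 (r * ‖(1 - (∑' k, (Pool.Agent.W746.LD.P n c b' k)⁻¹)) -
          (1 - (∑' k, (Pool.Agent.W746.LD.P n c b k)⁻¹))‖)) :=
      (((h1'.const_sub 1).sub (h1.const_sub 1)).norm).const_mul r
    refine le_of_tendsto h2 ?_
    filter_upwards [eventually_big hb 2, eventually_big hb' 2] with j hj hj'
    have h3 := (level hn hr hsub hj hb4).2.2 b' hj' hb4' hne
    rw [show (1 : ℂ) - S n c b' (j + 1) - (1 - S n c b (j + 1)) =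
      -(S n c b' (j + 1) - S n c b (j + 1)) by ring, norm_neg]
    exact h3
  rcases hx with ⟨rfl, rfl⟩ | ⟨N, rfl, rfl⟩ | ⟨hx1, hx2, rfl⟩ <;>
    rcases hy with ⟨rfl, rfl⟩ | ⟨M, rfl, rfl⟩ | ⟨hy1, hy2, rfl⟩
  · exact Bn.refl _ _ _
  · exact (h01 M).symm
  · exact (h02 _ hy1 hy2).symm
  · exact h01 N
  · exact h11 N M
  · exact (h12 N _ hy1 hy2).symm
  · exact h02 _ hx1 hx2
  · exact h12 M _ hx1 hx2
  · exact h22 _ hy1 hy2 _ hx1 hx2

theorem zero_mem_Hy (hn : 2 ≤ n) : (0 : ℂ) ∈ Hy n := by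
  refine ⟨1, 0, by norm_num, ?_, ?_, ?_⟩
  · change (fun z : ℂ => z ^ n + 0)^[1] 0 = 0
    simp only [Function.iterate_one]
    rw [zero_pow (by omega), add_zero]
  · simp only [Function.iterate_one]
    fun_prop
  · simp only [Function.iterate_one]
    have h1 : HasDerivAt (fun z : ℂ => z ^ n + 0) 0 0 := by
      have h2 := (hasDerivAt_pow n (0 : ℂ)).add_const 0
      rw [zero_pow (by omega : n - 1 ≠ 0), mul_zero] at h2
      exact h2
    rw [h1.deriv, norm_zero]
    exact one_pos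

theorem main_infDist (hn : 2 ≤ n) {c : ℂ} (hcM : c ∈ N62a1eb23.multibrotSet n) {x v y w : ℂ}
    (hx : Mv n c x v) (hy : Mv n c y w) : Bn (infDist c (Hy n)) x v y w := by
  rcases (infDist_nonneg (x := c) (s := Hy n)).eq_or_lt with h | h
  · rw [← h]
    unfold Bn
    rw [zero_mul]
    have h1 := C₁_nonneg
    positivity
  · refine main_ball hn h ?_ hcM hx hy
    intro t ht hcyc
    have h1 : infDist c (Hy n) ≤ dist c t := infDist_le_dist_of_mem hcyc
    rw [mem_ball, dist_comm] at ht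
    linarith

end Pool.Agent.X151.MU
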