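import Mathlib
import Pool.Agent.X151.MU.Four

/-!
# The velocities of the periodic points
-/

set_option autoImplicit false
open Complex Set Filter Topology Metric

namespace Pool.Agent.X151.MU

open Pool.Agent.H712R2 Pool.Agent.H713R2 Pool.Agent.H713R2.AR
open Pool.Agent.W746.LD (orb S hasDerivAt_orb orb_succ orb_zero P_eq_orb)
open Pool.Agent.TH363.QI (C₁ C₁_nonneg landau nopre D cyc)

variable {n : ℕ}

/-- The orbit escapes. -/
def Esc (n : ℕ) (c b : ℂ) : Prop := Tendsto (fun k => orb n c b k) atTop (Bornology.cobounded ℂ)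

/-- The velocity of an escaping point. -/
noncomputable def V (n : ℕ) (c b : ℂ) : ℂ := 1 - ∑' k, (Pool.Agent.W746.LD.P n c b k)⁻¹

theorem esc_orb {c b : ℂ} (h : Esc n c b) (p : ℕ) : Esc n c (orb n c b p) := by
  unfold Esc at h ⊢
  have h1 := (tendsto_add_atTop_iff_nat p).mpr h
  refine h1.congr fun k => ?_
  rw [← Pool.Agent.W746.LD.orb_add, add_comm]

theorem esc_ne_zero (hn : 2 ≤ n) {c b : ℂ} (hc : c ∈ N62a1eb23.multibrotSet n) (h : Esc n c b)
    (i : ℕ) : orb n c b i ≠ 0 := by
  obtain ⟨j, hj1, hj2⟩ := ((eventually_big h 2).and (eventually_gt_atTop i)).exists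
  exact orb_ne_of_big hn hc hj1 i hj2

/-- The functional equation. -/
theorem V_orb (hn : 2 ≤ n) {c b : ℂ} (hc : c ∈ N62a1eb23.multibrotSet n) (h : Esc n c b) (p : ℕ) :
    V n c (orb n c b p) = 1 - Pool.Agent.W746.LD.P n c b p * (1 - V n c b - S n c b p) := by
  have h1 := tendsto_S hn h
  have h2 := tendsto_S hn (esc_orb h p)
  have hP : Pool.Agent.W746.LD.P n c b p ≠ 0 :=
    Pool.Agent.W746.LD.P_ne_zero hn fun i _ => esc_ne_zero hn hc h i
  have h3 : Tendsto (fun j => S n c b (p + (j + 1))) atTop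
      (𝓝 (∑' k, (Pool.Agent.W746.LD.P n c b k)⁻¹)) := by
    have h4 := h1.comp (tendsto_add_atTop_nat p)
    refine h4.congr fun j => ?_
    simp only [Function.comp]
    congr 1
    omega
  have h4 : Tendsto (fun j => S n c b (p + (j + 1))) atTop
      (𝓝 (S n c b p + (Pool.Agent.W746.LD.P n c b p)⁻¹ *
        ∑' k, (Pool.Agent.W746.LD.P n c (orb n c b p) k)⁻¹)) := by
    refine ((h2.const_mul _).const_add _).congr fun j => ?_
    rw [Pool.Agent.W746.LD.S_add b p (j + 1)]
  have h5 := tendsto_nhds_unique h3 h4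
  unfold V
  rw [h5]
  field_simp
  ring

/-- A repelling periodic point is a limit of escaping points. -/
theorem exists_esc (hn : 2 ≤ n) {c : ℂ} (hc : ‖c‖ ≤ 2) {a : ℂ} {p : ℕ} (_hp : 1 ≤ p)
    (ha : orb n c a p = a) (hl : 1 < ‖Pool.Agent.W746.LD.P n c a p‖) {ε : ℝ} (hε : 0 < ε) :
    ∃ b ∈ ball a ε, Esc n c b := by
  by_contra hcon
  push Not at hcon
  have hb3 : ∀ z ∈ ball a ε, ∀ k, ‖orb n c z k‖ ≤ 3 := by
    intro z hz k
    have h1 : z ∈ ⋂ j, EE n c j := by
      rw [iInter_EE hn hc]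
      exact hcon z hz
    exact Set.mem_iInter.mp h1 k
  have hpow : ∀ k, orb n c a (k * p) = a ∧
      Pool.Agent.W746.LD.P n c a (k * p) = Pool.Agent.W746.LD.P n c a p ^ k := by
    intro k
    induction k with
    | zero => simp
    | succ k ih =>
      obtain ⟨h1, h2⟩ := ih
      rw [show (k + 1) * p = k * p + p by ring]
      constructor
      · rw [Pool.Agent.W746.LD.orb_add, h1, ha]
      · rw [Pool.Agent.W746.LD.P_add, h1, h2, pow_succ]
  have hbound : ∀ k, ‖Pool.Agent.W746.LD.P n c a p‖ ^ k ≤ 6 / ε := by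
    intro k
    have h1 : MapsTo (fun z => orb n c z (k * p)) (ball a ε)
        (closedBall ((fun z => orb n c z (k * p)) a) 6) := by
      intro z hz
      rw [mem_closedBall, dist_eq_norm]
      refine (norm_sub_le _ _).trans ?_
      have h2 := hb3 z hz (k * p)
      have h3 := hb3 a (mem_ball_self hε) (k * p)
      simp only
      linarith
    have hd : Differentiable ℂ fun z => orb n c z (k * p) := fun z =>
      (hasDerivAt_orb z (k * p)).differentiableAt
    have h2 := Complex.norm_deriv_le_div_of_mapsTo_ball hd.differentiableOn h1 hε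
    rw [(hasDerivAt_orb a (k * p)).deriv, (hpow k).2, norm_pow] at h2
    exact h2
  obtain ⟨k, hk⟩ := (tendsto_pow_atTop_atTop_of_one_lt hl).eventually (eventually_gt_atTop (6 / ε))
    |>.exists
  linarith [hbound k]

/-- The velocity of a periodic point. -/
theorem tendsto_V (hn : 2 ≤ n) {c : ℂ} {r : ℝ} (hr : 0 < r)
    (hno : ∀ t ∈ ball c r, ¬ ∃ m z, N62a1eb23.IsAttractingCycle (fun z => z ^ n + t) m z)
    (hcM : c ∈ N62a1eb23.multibrotSet n) {a : ℂ} {p : ℕ} (hp : 1 ≤ p) (ha : orb n c a p = a) :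
    ∃ b : ℕ → ℂ, (∀ k, Esc n c (b k)) ∧ (∀ k, ‖b k‖ ≤ 4) ∧ Tendsto b atTop (𝓝 a) ∧
      Tendsto (fun k => V n c (b k)) atTop
        (𝓝 (Pool.Agent.W746.LD.P n c a p * (S n c a (p + 1) - 1) /
          (1 - Pool.Agent.W746.LD.P n c a p))) := by
  have hc2 := norm_le_two_of_sub hn hcM
  have hl : 1 < ‖Pool.Agent.W746.LD.P n c a p‖ := cyc hn hno (mem_ball_self hr) hp ha
  have ha3 : ‖a‖ < 3 := by
    by_contra hcon
    rw [not_lt] at hcon
    -- the orbit would be unbounded
    have h1 : ∀ k, ‖a‖ + k ≤ ‖orb n c a k‖ := by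
      intro k
      induction k with
      | zero => simp
      | succ k ih =>
        have h2 := orb_big hn hc2 hcon k
        have h3 : ‖orb n c a k‖ ^ 2 ≤ ‖orb n c a k‖ ^ n := pow_le_pow_right₀ (by linarith) hn
        have h4 : ‖orb n c a k‖ ^ n - 2 ≤ ‖orb n c a (k + 1)‖ := by
          rw [orb_succ]
          have := norm_sub_le (orb n c a k ^ n + c) c
          rw [add_sub_cancel_right, norm_pow] at this
          linarith
        push_cast
        nlinarith
    have h2 := h1 p
    rw [ha] at h2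
    have h3 : (1 : ℝ) ≤ p := by exact_mod_cast hp
    linarith
  have hper : ∀ i, orb n c a i ≠ 0 := by
    intro i h0
    have h1 : ∀ k, orb n c a (k * p) = a := by
      intro k
      induction k with
      | zero => simp
      | succ k ih => rw [show (k + 1) * p = k * p + p by ring, Pool.Agent.W746.LD.orb_add, ih, ha]
    obtain ⟨k, hk⟩ : ∃ k, i < k * p := ⟨i + 1, by nlinarith⟩
    have h2 : Pool.Agent.W746.LD.P n c a (k * p) = 0 := by
      unfold Pool.Agent.W746.LD.P
      apply Finset.prod_eq_zero (Finset.mem_range.mpr hk)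
      rw [h0, zero_pow (by omega), mul_zero]
    have h3 : ∀ k, Pool.Agent.W746.LD.P n c a (k * p) = Pool.Agent.W746.LD.P n c a p ^ k := by
      intro k
      induction k with
      | zero => simp
      | succ k ih =>
        rw [show (k + 1) * p = k * p + p by ring, Pool.Agent.W746.LD.P_add, h1, ih, pow_succ]
    rw [h3] at h2
    have hk0 : k ≠ 0 := by
      rintro rfl
      omega
    have h4 : Pool.Agent.W746.LD.P n c a p = 0 := (pow_eq_zero_iff hk0).mp h2
    rw [h4, norm_zero] at hl
    linarith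
  have hex : ∀ k : ℕ, ∃ b ∈ ball a (1 / ((k : ℝ) + 1)), Esc n c b := fun k =>
    exists_esc hn hc2 hp ha hl (by positivity)
  choose b hb1 hb2 using hex
  have hba : Tendsto b atTop (𝓝 a) := by
    rw [tendsto_iff_dist_tendsto_zero]
    refine squeeze_zero (fun _ => dist_nonneg) (fun k => (mem_ball.mp (hb1 k)).le) ?_
    exact tendsto_one_div_add_atTop_nhds_zero_nat
  have hb4 : ∀ k, ‖b k‖ ≤ 4 := by
    intro k
    have h1 := mem_ball_iff_norm.mp (hb1 k)
    have h2 : 1 / ((k : ℝ) + 1) ≤ 1 := by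
      rw [div_le_one (by positivity)]
      linarith [(Nat.cast_nonneg k : (0:ℝ) ≤ k)]
    have h3 := norm_sub_norm_le (b k) a
    linarith
  refine ⟨b, hb2, hb4, hba, ?_⟩
  -- continuity of the finite quantities
  have horb : Tendsto (fun k => orb n c (b k) p) atTop (𝓝 a) := by
    have h1 : ContinuousAt (fun z => orb n c z p) a := (hasDerivAt_orb a p).continuousAt
    have h2 := h1.tendsto.comp hba
    simp only [ha] at h2
    exact h2
  have hPt : Tendsto (fun k => Pool.Agent.W746.LD.P n c (b k) p) atTop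
      (𝓝 (Pool.Agent.W746.LD.P n c a p)) :=
    ((Pool.Agent.W746.LD.differentiable_P p).continuous.tendsto a).comp hba
  have hSt : Tendsto (fun k => S n c (b k) p) atTop (𝓝 (S n c a p)) := by
    have h1 : DifferentiableAt ℂ (fun z => S n c z p) a :=
      Pool.Agent.W746.LD.differentiableAt_S p fun i _ =>
        Pool.Agent.W746.LD.P_ne_zero hn fun m _ => hper m
    exact h1.continuousAt.tendsto.comp hba
  -- the difference tends to zero
  have horb4 : ∀ᶠ k in atTop, ‖orb n c (b k) p‖ ≤ 4 := by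
    have h1 := horb.norm.eventually (gt_mem_nhds (show ‖a‖ < 4 by linarith))
    filter_upwards [h1] with k hk using hk.le
  have hdiff0 : Tendsto (fun k => orb n c (b k) p - b k) atTop (𝓝 0) := by
    have h1 := horb.sub hba
    rwa [sub_self] at h1
  have hmod : Tendsto (fun k => (4 * C₁ + 24) * ‖orb n c (b k) p - b k‖ *
      (1 + |Real.log ‖orb n c (b k) p - b k‖|)) atTop (𝓝 0) := by
    have h1 : Tendsto (fun k => ‖orb n c (b k) p - b k‖) atTop (𝓝 0) := by
      simpa using hdiff0.norm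
    have h2 : Tendsto (fun k => ‖orb n c (b k) p - b k‖ * Real.log ‖orb n c (b k) p - b k‖) atTop
        (𝓝 0) := by
      have h3 := (Real.continuous_mul_log.tendsto 0).comp h1
      rw [zero_mul] at h3
      exact h3
    have h4 : Tendsto (fun k => (4 * C₁ + 24) * (‖orb n c (b k) p - b k‖ +
        |‖orb n c (b k) p - b k‖ * Real.log ‖orb n c (b k) p - b k‖|)) atTop (𝓝 0) := by
      have h5 := (h1.add h2.abs).const_mul (4 * C₁ + 24)
      simpa using h5
    refine h4.congr fun k => ?_
    rw [abs_mul, abs_of_nonneg (norm_nonneg _)]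
    ring
  have hδ : Tendsto (fun k => V n c (orb n c (b k) p) - V n c (b k)) atTop (𝓝 0) := by
    rw [tendsto_zero_iff_norm_tendsto_zero]
    have h1 : Tendsto (fun k => (4 * C₁ + 24) * ‖orb n c (b k) p - b k‖ *
      (1 + |Real.log ‖orb n c (b k) p - b k‖|) / r) atTop (𝓝 0) := by
      have := hmod.div_const r
      rwa [zero_div] at this
    refine squeeze_zero' (Filter.Eventually.of_forall fun _ => norm_nonneg _) ?_ h1
    filter_upwards [horb4] with k hk
    have h2 : Bn r (orb n c (b k) p) (V n c (orb n c (b k) p)) (b k) (V n c (b k)) :=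
      main_ball hn hr hno hcM (Or.inr (Or.inr ⟨esc_orb (hb2 k) p, hk, rfl⟩))
        (Or.inr (Or.inr ⟨hb2 k, hb4 k, rfl⟩))
    rw [le_div_iff₀ hr, mul_comm]
    exact h2
  have hne : (1 : ℂ) - Pool.Agent.W746.LD.P n c a p ≠ 0 := by
    intro h
    have h1 : Pool.Agent.W746.LD.P n c a p = 1 := by linear_combination -h
    rw [h1, norm_one] at hl
    linarith
  have hden : Tendsto (fun k => 1 - Pool.Agent.W746.LD.P n c (b k) p) atTop
      (𝓝 (1 - Pool.Agent.W746.LD.P n c a p)) := hPt.const_sub 1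
  have hnum : Tendsto (fun k => (1 - Pool.Agent.W746.LD.P n c (b k) p * (1 - S n c (b k) p)) -
      (V n c (orb n c (b k) p) - V n c (b k))) atTop
      (𝓝 ((1 - Pool.Agent.W746.LD.P n c a p * (1 - S n c a p)) - 0)) :=
    ((hPt.mul (hSt.const_sub 1)).const_sub 1).sub hδ
  have hq := hnum.div hden hne
  have hlim : ((1 - Pool.Agent.W746.LD.P n c a p * (1 - S n c a p)) - 0) /
      (1 - Pool.Agent.W746.LD.P n c a p) =
      Pool.Agent.W746.LD.P n c a p * (S n c a (p + 1) - 1) / (1 - Pool.Agent.W746.LD.P n c a p) := by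
    congr 1
    rw [Pool.Agent.W746.LD.S_succ]
    have h1 : Pool.Agent.W746.LD.P n c a p ≠ 0 :=
      Pool.Agent.W746.LD.P_ne_zero hn fun m _ => hper m
    field_simp
    ring
  rw [hlim] at hq
  refine hq.congr' ?_
  have hev : ∀ᶠ k in atTop, (1 : ℂ) - Pool.Agent.W746.LD.P n c (b k) p ≠ 0 :=
    hden.eventually_ne hne
  filter_upwards [hev] with k hk
  simp only [Pi.div_apply]
  rw [div_eq_iff hk, V_orb hn hcM (hb2 k)]
  ring

end Pool.Agent.X151.MU
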