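import Mathlib
import Pool.Agent.X151.MU.Five

/-!
# The log-Lipschitz bound with the periodic points
-/

set_option autoImplicit false
open Complex Set Filter Topology Metric

namespace Pool.Agent.X151.MU

open Pool.Agent.H712R2 Pool.Agent.H713R2 Pool.Agent.H713R2.AR
open Pool.Agent.W746.LD (orb S hasDerivAt_orb orb_succ orb_zero P_eq_orb)
open Pool.Agent.TH363.QI (C₁ C₁_nonneg landau nopre D cyc)

variable {n : ℕ}

theorem bn_limit {r : ℝ} {x v : ℕ → ℂ} {x₀ v₀ y w : ℂ} (hx : Tendsto x atTop (𝓝 x₀))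
    (hv : Tendsto v atTop (𝓝 v₀)) (h : ∀ k, Bn r (x k) (v k) y w) : Bn r x₀ v₀ y w := by
  have hcont : Continuous fun u : ℂ => (4 * C₁ + 24) * (‖u‖ + |‖u‖ * Real.log ‖u‖|) := by
    have h1 : Continuous fun u : ℂ => ‖u‖ * Real.log ‖u‖ := Real.continuous_mul_log.comp continuous_norm
    fun_prop
  have heq : ∀ u : ℂ, (4 * C₁ + 24) * (‖u‖ + |‖u‖ * Real.log ‖u‖|) =
      (4 * C₁ + 24) * ‖u‖ * (1 + |Real.log ‖u‖|) := by
    intro u
    rw [abs_mul, abs_of_nonneg (norm_nonneg u)]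
    ring
  unfold Bn
  rw [← heq]
  have h1 : Tendsto (fun k => r * ‖v k - w‖) atTop (𝓝 (r * ‖v₀ - w‖)) :=
    ((hv.sub_const w).norm).const_mul r
  have h2 : Tendsto (fun k => (4 * C₁ + 24) * (‖x k - y‖ + |‖x k - y‖ * Real.log ‖x k - y‖|)) atTop
      (𝓝 ((4 * C₁ + 24) * (‖x₀ - y‖ + |‖x₀ - y‖ * Real.log ‖x₀ - y‖|))) :=
    (hcont.tendsto (x₀ - y)).comp (hx.sub_const y)
  refine le_of_tendsto_of_tendsto' h1 h2 fun k => ?_
  rw [heq]
  exact h k

/-- The periodic points and their velocities. -/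
def Pe (n : ℕ) (c x v : ℂ) : Prop := ∃ p : ℕ, 1 ≤ p ∧ orb n c x p = x ∧
  v = Pool.Agent.W746.LD.P n c x p * (S n c x (p + 1) - 1) / (1 - Pool.Agent.W746.LD.P n c x p)

theorem full_ball (hn : 2 ≤ n) {c : ℂ} {r : ℝ} (hr : 0 < r)
    (hno : ∀ t ∈ ball c r, ¬ ∃ m z, N62a1eb23.IsAttractingCycle (fun z => z ^ n + t) m z)
    (hcM : c ∈ N62a1eb23.multibrotSet n) {x v y w : ℂ} (hx : Mv n c x v ∨ Pe n c x v)
    (hy : Mv n c y w ∨ Pe n c y w) : Bn r x v y w := by
  have hone : ∀ x v y w : ℂ, (Mv n c x v ∨ Pe n c x v) → Mv n c y w → Bn r x v y w := by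
    intro x v y w hx hy
    rcases hx with hx | ⟨p, hp, h1, rfl⟩
    · exact main_ball hn hr hno hcM hx hy
    · obtain ⟨b, hb1, hb2, hb3, hb4⟩ := tendsto_V hn hr hno hcM hp h1
      exact bn_limit hb3 hb4 fun k =>
        main_ball hn hr hno hcM (Or.inr (Or.inr ⟨hb1 k, hb2 k, rfl⟩)) hy
  rcases hy with hy | ⟨p, hp, h1, rfl⟩
  · exact hone x v y w hx hy
  · obtain ⟨b, hb1, hb2, hb3, hb4⟩ := tendsto_V hn hr hno hcM hp h1
    apply Bn.symm
    exact bn_limit hb3 hb4 fun k =>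
      (hone x v _ _ hx (Or.inr (Or.inr ⟨hb1 k, hb2 k, rfl⟩))).symm

/-- In the absence of nearby attracting cycles the orbit of a periodic point avoids `0`. -/
theorem per_ne_zero (hn : 2 ≤ n) {c : ℂ}
    (hno : ¬ ∃ m z, N62a1eb23.IsAttractingCycle (fun z => z ^ n + c) m z)
    {a : ℂ} {p : ℕ} (hp : 1 ≤ p) (ha : orb n c a p = a) (i : ℕ) : orb n c a i ≠ 0 := by
  intro h0
  have h1 : ∀ k, orb n c a (k * p) = a := by
    intro k
    induction k with
    | zero => simp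
    | succ k ih => rw [show (k + 1) * p = k * p + p by ring, Pool.Agent.W746.LD.orb_add, ih, ha]
  have h2 : orb n c 0 (((i + 1) * p - i) + i) = 0 := by
    have h3 : orb n c a (i + ((i + 1) * p - i)) = a := by
      have : i + ((i + 1) * p - i) = (i + 1) * p := by
        have : i + 1 ≤ (i + 1) * p := Nat.le_mul_of_pos_right _ hp
        omega
      rw [this, h1]
    rw [Pool.Agent.W746.LD.orb_add] at h3
    rw [h0] at h3
    rw [Pool.Agent.W746.LD.orb_add, h3, h0]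
  have h4 : 1 ≤ ((i + 1) * p - i) + i := by
    have : i + 1 ≤ (i + 1) * p := Nat.le_mul_of_pos_right _ hp
    omega
  exact Pool.Agent.H713R2.AR.P_ne_zero hn hno h4 h2

theorem full_infDist (hn : 2 ≤ n) {c : ℂ} (hcM : c ∈ N62a1eb23.multibrotSet n) {x v y w : ℂ}
    (hx : 0 < infDist c (Hy n) → Mv n c x v ∨ Pe n c x v)
    (hy : 0 < infDist c (Hy n) → Mv n c y w ∨ Pe n c y w) : Bn (infDist c (Hy n)) x v y w := by
  rcases (infDist_nonneg (x := c) (s := Hy n)).eq_or_lt with h | h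
  · rw [← h]
    unfold Bn
    rw [zero_mul]
    have h1 := C₁_nonneg
    positivity
  · refine full_ball hn h ?_ hcM (hx h) (hy h)
    intro t ht hcyc
    have h1 : infDist c (Hy n) ≤ dist c t := infDist_le_dist_of_mem hcyc
    rw [mem_ball, dist_comm] at ht
    linarith

theorem no_cycle {c : ℂ} (h : 0 < infDist c (Hy n)) :
    ¬ ∃ m z, N62a1eb23.IsAttractingCycle (fun z => z ^ n + c) m z := by
  intro hcyc
  have h1 : infDist c (Hy n) = 0 := infDist_zero_of_mem hcyc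
  linarith

end Pool.Agent.X151.MU
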